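import Pool.Agent.Lib.MP_dea8c9_co.MQBasic

/-!
# Eleven mutually quasi-orthogonal latin squares of order 12

Rows, columns and symbols of the eleven squares are the elements of `F_11` and one more element `∞ = 11`; the
square with index `h` has the entry `i + ψ (j - i - h)` in the cell `(i, j)`, where `ψ x = 7 x` if `x` is a
nonzero square and `ψ x = 8 x` if it is not (and `∞` if `j - i = h`).  All of them agree in the column `∞`, and
no latin square is quasi-orthogonal to all of them.  Products with sets of orthogonal latin squares give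
infinitely many orders.
-/

set_option autoImplicit false

namespace Pool.Agent.Results.MP_dea8c9_co.CompleteOrderTwelve

open Finset Pool.Agent.Lib.MP_dea8c9_co.MQ

/-! ### Order 12 -/

/-- the map `x ↦ 7 x` on squares, `x ↦ 8 x` on nonsquares modulo `11` -/
def psi (d : ℕ) : ℕ := if d = 1 ∨ d = 3 ∨ d = 4 ∨ d = 5 ∨ d = 9 then 7 * d else 8 * d

def val12 (h i j : ℕ) : ℕ :=
  if i = 11 then (if j = 11 then 11 else (j + 11 - h) % 11)
  else if j = 11 then i
  else if (j + 22 - i - h) % 11 = 0 then 11 else (i + psi ((j + 22 - i - h) % 11)) % 11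

theorem val12_lt (h i j : ℕ) (hi : i < 12) : val12 h i j < 12 := by
  unfold val12
  split_ifs <;> omega

/-- the square with index `h` -/
def sq12 (h : Fin 11) : Sq (Fin 12) := fun i j => ⟨val12 h i j, val12_lt h i j i.2⟩

/-- the shift of the columns by `-h`; the column `11` is fixed -/
def sh (h : Fin 11) (j : Fin 12) : Fin 12 :=
  if h' : (j : ℕ) = 11 then j else ⟨((j : ℕ) + 11 - h) % 11, by omega⟩

theorem sh_inj : ∀ (h : Fin 11) (j k : Fin 12), sh h j = sh h k → j = k := by
  decide +kernel

theorem sq12_shift : ∀ (h k : Fin 11) (i j : Fin 12), sq12 k i j = sq12 (k - h) i (sh h j) := by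
  decide +kernel

theorem latin12_row : ∀ i j k : Fin 12, sq12 0 i j = sq12 0 i k → j = k := by
  decide +kernel

theorem latin12_col : ∀ j i k : Fin 12, sq12 0 i j = sq12 0 k j → i = k := by
  decide +kernel

theorem diag12 : ∀ k : Fin 11, k ≠ 0 → ∀ u : Fin 12, cnt (sq12 0) (sq12 k) u u = 1 := by
  decide +kernel

theorem off12 : ∀ k : Fin 11, k ≠ 0 → ∀ u v : Fin 12, u ≠ v →
    cnt (sq12 0) (sq12 k) u v + cnt (sq12 0) (sq12 k) v u = 2 := by
  decide +kernel

theorem mqols12 : IsMQOLS sq12 := by
  have hs : ∀ h : Fin 11, ∃ e : Fin 12 ≃ Fin 12, ∀ j, e j = sh h j := fun h =>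
    ⟨Equiv.ofBijective (sh h) (Finite.injective_iff_bijective.1 fun j k => sh_inj h j k), fun _ => rfl⟩
  have h0 : IsLatin (sq12 0) := isLatin_of latin12_row latin12_col
  refine ⟨fun k => ?_, fun k l hkl => ?_⟩
  · obtain ⟨e, he⟩ := hs k
    have hk : sq12 k = fun i j => sq12 0 i (e j) := by
      funext i j
      rw [he, sq12_shift k k i j, sub_self]
    rw [hk]
    exact ⟨fun i => (h0.1 i).comp e.bijective, fun j => h0.2 (e j)⟩
  · obtain ⟨e, he⟩ := hs k
    have hk : sq12 k = fun i j => sq12 0 i (e j) := by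
      funext i j
      rw [he, sq12_shift k k i j, sub_self]
    have hl : sq12 l = fun i j => sq12 (l - k) i (e j) := by
      funext i j
      rw [he, sq12_shift k l i j]
    rw [hk, hl]
    have hne : l - k ≠ 0 := sub_ne_zero.2 (Ne.symm hkl)
    exact quasiOrth_perm ⟨diag12 _ hne, off12 _ hne⟩ e

theorem col12 : CommonColumn sq12 11 := by
  intro k l i
  refine Fin.ext ?_
  show val12 k i 11 = val12 l i 11
  unfold val12
  by_cases h : (i : ℕ) = 11
  · simp [h]
  · simp [h]


/-- There are eleven mutually quasi-orthogonal latin squares of order `12`, agreeing in a column; every such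
set is maximal.  Hence there are `N` of them of order `12 k` if `N ≤ 11` and `N < p ^ e` for the maximal prime
powers `p ^ e` dividing `k`. -/
theorem result :
    (∃ (L : Fin 11 → Sq (Fin 12)) (c : Fin 12), IsMQOLS L ∧ (∀ k l i, L k i c = L l i c) ∧
      ∀ X : Sq (Fin 12), IsLatin X → ∃ k, ¬ QuasiOrth (L k) X) ∧
    (∀ N k : ℕ, N ≤ 11 → 0 < k → (∀ p : ℕ, p.Prime → p ∣ k → N < p ^ k.factorization p) →
      ∃ L : Fin N → Sq (Fin (12 * k)), IsMQOLS L) := by
  refine ⟨⟨sq12, 11, mqols12, col12, fun X hX =>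
    commonColumn_maximal mqols12 col12 (by norm_num) (by norm_num) X hX⟩, fun N k hN hk hp => ?_⟩
  have h12 : HasMQOLS 11 12 := ⟨sq12, mqols12⟩
  exact hasMQOLS_mul (h12.mono hN) (hasMOLS_of_factors N k hk hp)

end Pool.Agent.Results.MP_dea8c9_co.CompleteOrderTwelve
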