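import Pool.Agent.Lib.MP_dea8c9_co.MF.Fin
import Pool.Agent.Lib.MP_dea8c9_co.MR.Fld
import Pool.Agent.Results.MP_dea8c9_co.CompleteOrderTwelve

/-!
# A recursive construction of mutually quasi-orthogonal latin squares

Let `m` be an odd prime power.  `Adm m q`: `q` is an odd prime power, and either `m` is a prime and `q - 1` has an odd
divisor `≥ m`, or `q = 3 mod 4` and `q > 2 m`.  Let `Q` be an integer all of whose exact prime power divisors are
admissible.  If there are `N ≤ m` mutually quasi-orthogonal latin squares of order `m t + 1` which agree in one cell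
and `N` mutually orthogonal latin squares of order `t`, then there are `N` mutually quasi-orthogonal latin squares of
order `m Q t + 1` which agree in one cell.  With `t = 1`, the fields of order `m + 1 = 2^k` and the eleven squares of
order 12 this gives `m` squares of order `m Q + 1` and eleven squares of order `11 Q + 1`.
-/

set_option autoImplicit false

namespace Pool.Agent.Results.MP_dea8c9_co.Recursion

open Finset Pool.Agent.Lib.MP_dea8c9_co.MQ Pool.Agent.Lib.MP_dea8c9_co.MF
open Pool.Agent.Lib.MP_dea8c9_co.MR (agree_primePow)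
open Pool.Agent.Results.MP_dea8c9_co.CompleteOrderTwelve (sq12 mqols12 col12)

/-- `m` is an odd prime power, `Q` an integer with admissible exact prime power divisors.  (1) The recursion.
(2) If `m + 1` is a prime power (`m` = 3, 7, 31, 127, ...), there are `m` mutually quasi-orthogonal latin squares of order
`m Q + 1`.  (3) There are eleven of order `11 Q + 1`. -/
theorem result :
    (∀ m Q t N : ℕ, IsPrimePow m → Odd m → 0 < Q →
      (∀ p : ℕ, p.Prime → p ∣ Q → Adm m (p ^ Q.factorization p)) → N ≤ m →
      HasMOLS N t → HasAgree N (m * t + 1) → HasAgree N (m * (Q * t) + 1)) ∧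
    (∀ m Q : ℕ, IsPrimePow m → Odd m → IsPrimePow (m + 1) → 0 < Q →
      (∀ p : ℕ, p.Prime → p ∣ Q → Adm m (p ^ Q.factorization p)) → HasAgree m (m * Q + 1)) ∧
    ∀ Q : ℕ, 0 < Q → (∀ p : ℕ, p.Prime → p ∣ Q → Adm 11 (p ^ Q.factorization p)) →
      HasAgree 11 (11 * Q + 1) := by
  have main : ∀ m Q t N : ℕ, IsPrimePow m → Odd m → 0 < Q →
      (∀ p : ℕ, p.Prime → p ∣ Q → Adm m (p ^ Q.factorization p)) → N ≤ m →
      HasMOLS N t → HasAgree N (m * t + 1) → HasAgree N (m * (Q * t) + 1) :=
    fun m Q t N h1 h2 h3 h4 h5 h6 h7 => (inflate h1 h2 h5 Q h3 h4).2 t h6 h7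
  refine ⟨main, ?_, ?_⟩
  · intro m Q h1 h2 h3 h4 h5
    have h6 := main m Q 1 m h1 h2 h4 h5 le_rfl (hasMOLS_one m)
      (by rw [mul_one]; exact agree_primePow h3)
    rwa [mul_one] at h6
  · intro Q h1 h2
    have h6 := main 11 Q 1 11 Nat.prime_eleven.isPrimePow (by decide) h1 h2 le_rfl (hasMOLS_one 11)
      (show HasAgree 11 12 from ⟨sq12, mqols12, 0, 11, sq12 0 0 11, fun k => col12 k 0 0⟩)
    rwa [mul_one] at h6

end Pool.Agent.Results.MP_dea8c9_co.Recursion
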