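import Mathlib

/-!
# Mutually quasi-orthogonal latin squares: the unbalanced pairs

For two quasi-orthogonal latin squares every ordered pair of symbols occurs `0`, `1` or `2` times.
We prove a lower bound for the number of ordered pairs that occur twice, an upper bound for the
number of mutually quasi-orthogonal latin squares of even order, and the maximality of complete
sets of orthogonal latin squares.
-/

set_option autoImplicit false

namespace Pool.Agent.Results.MP_dea8c9_co.UnbalancedPairs

open Finset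

/-- Arrays of side `n` with entries in `Fin n`. -/
abbrev Sq (n : ℕ) : Type := Fin n → Fin n → Fin n

/-- Latin squares of order `n`. -/
def IsLatin {n : ℕ} (L : Sq n) : Prop :=
  (∀ i, Function.Bijective (L i)) ∧ ∀ j, Function.Bijective fun i => L i j

/-- Number of cells in which `L` has the symbol `u` and `M` has the symbol `v`. -/
def cnt {n : ℕ} (L M : Sq n) (u v : Fin n) : ℕ :=
  (univ.filter fun p : Fin n × Fin n => L p.1 p.2 = u ∧ M p.1 p.2 = v).card

/-- `L` and `M` are quasi-orthogonal. -/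
def QuasiOrth {n : ℕ} (L M : Sq n) : Prop :=
  (∀ u, cnt L M u u = 1) ∧ ∀ u v, u ≠ v → cnt L M u v + cnt L M v u = 2

/-- `L` and `M` are orthogonal. -/
def Orth {n : ℕ} (L M : Sq n) : Prop := ∀ u v, cnt L M u v = 1

/-- A family of mutually quasi-orthogonal latin squares. -/
def IsMQOLS {n N : ℕ} (L : Fin N → Sq n) : Prop :=
  (∀ k, IsLatin (L k)) ∧ ∀ k l, k ≠ l → QuasiOrth (L k) (L l)

/-- A family of mutually orthogonal latin squares. -/
def IsMOLS {n N : ℕ} (L : Fin N → Sq n) : Prop :=
  (∀ k, IsLatin (L k)) ∧ ∀ k l, k ≠ l → Orth (L k) (L l)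

/-- The number of ordered pairs of symbols which occur exactly twice. -/
def twice {n : ℕ} (L M : Sq n) : ℕ :=
  (univ.filter fun w : Fin n × Fin n => cnt L M w.1 w.2 = 2).card

/-! ### Counting in one square -/

variable {n : ℕ}

theorem card_fiber_one {g : Fin n → Fin n} (hg : Function.Bijective g) (u : Fin n) :
    (univ.filter fun j => g j = u).card = 1 := by
  obtain ⟨j, hj, huniq⟩ := hg.existsUnique u
  rw [Finset.card_eq_one]
  refine ⟨j, ?_⟩
  ext k
  simp only [mem_filter, mem_univ, true_and, mem_singleton]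
  exact ⟨fun h => huniq k h, fun h => by rw [h]; exact hj⟩

theorem card_fiber {L : Sq n} (hL : IsLatin L) (u : Fin n) :
    (univ.filter fun p : Fin n × Fin n => L p.1 p.2 = u).card = n := by
  rw [Finset.card_filter, Fintype.sum_prod_type]
  have : ∀ i : Fin n, (∑ j : Fin n, if L i j = u then 1 else 0) = 1 := by
    intro i
    rw [← Finset.card_filter]
    exact card_fiber_one (hL.1 i) u
  simp only [this]
  simp

theorem row_sum {L M : Sq n} (hL : IsLatin L) (u : Fin n) : ∑ v, cnt L M u v = n := by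
  refine Eq.trans ?_ (card_fiber hL u)
  rw [Finset.card_eq_sum_card_fiberwise (f := fun p : Fin n × Fin n => M p.1 p.2) (t := univ)
      (fun _ _ => by simp)]
  apply Finset.sum_congr rfl
  intro v _
  unfold cnt
  congr 1
  ext p
  simp [Finset.mem_filter]

/-- Pairs of cells with equal values of `F`. -/
theorem card_eq_pairs {α β : Type*} [Fintype α] [Fintype β] [DecidableEq α] [DecidableEq β]
    (F : α → β) :
    (univ.filter fun x : α × α => F x.1 = F x.2).card =
      ∑ w, (univ.filter fun p => F p = w).card ^ 2 := by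
  rw [Finset.card_eq_sum_card_fiberwise (f := fun x : α × α => F x.1) (t := univ)
      (fun _ _ => by simp)]
  apply Finset.sum_congr rfl
  intro w _
  rw [sq, ← Finset.card_product]
  congr 1
  ext x
  simp only [mem_filter, mem_univ, true_and, mem_product]
  constructor
  · rintro ⟨h1, h2⟩
    exact ⟨h2, by rw [← h1]; exact h2⟩
  · rintro ⟨h1, h2⟩
    exact ⟨by rw [h1, h2], h1⟩

theorem card_pairs (L M : Sq n) :
    (univ.filter fun x : (Fin n × Fin n) × (Fin n × Fin n) =>
      L x.1.1 x.1.2 = L x.2.1 x.2.2 ∧ M x.1.1 x.1.2 = M x.2.1 x.2.2).card =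
      ∑ u, ∑ v, cnt L M u v ^ 2 := by
  have h := card_eq_pairs (fun p : Fin n × Fin n => (L p.1 p.2, M p.1 p.2))
  rw [Fintype.sum_prod_type] at h
  simp only [Prod.mk.injEq] at h
  rw [h]
  rfl

/-- Pairs of cells in different rows and different columns. -/
def GP (n : ℕ) : Finset ((Fin n × Fin n) × (Fin n × Fin n)) :=
  univ.filter fun x => x.1.1 ≠ x.2.1 ∧ x.1.2 ≠ x.2.2

theorem card_offdiag : (univ.filter fun x : Fin n × Fin n => x.1 ≠ x.2).card = n * (n - 1) := by
  have h := Finset.offDiag_card (univ : Finset (Fin n))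
  rw [Finset.card_univ, Fintype.card_fin] at h
  rw [Nat.mul_sub, mul_one, ← h]
  congr 1
  ext x
  simp [Finset.mem_offDiag]

theorem card_GP : (GP n).card = (n * (n - 1)) ^ 2 := by
  rw [sq, ← card_offdiag, ← Finset.card_product]
  apply Finset.card_bij (fun x _ => ((x.1.1, x.2.1), (x.1.2, x.2.2)))
  · intro x hx
    simp only [GP, mem_filter, mem_univ, true_and] at hx
    simp only [mem_product, mem_filter, mem_univ, true_and]
    exact hx
  · rintro ⟨⟨a, b⟩, ⟨c, d⟩⟩ _ ⟨⟨a', b'⟩, ⟨c', d'⟩⟩ _ h
    simp only [Prod.mk.injEq] at h ⊢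
    tauto
  · rintro ⟨⟨a, b⟩, ⟨c, d⟩⟩ hx
    simp only [mem_product, mem_filter, mem_univ, true_and] at hx
    exact ⟨((a, c), (b, d)), by simpa [GP] using hx, rfl⟩

/-- Pairs of different cells with the same symbol in `L` and in `M`. -/
theorem card_pairs_GP {L M : Sq n} (hL : IsLatin L) :
    ((GP n).filter fun x => L x.1.1 x.1.2 = L x.2.1 x.2.2 ∧
      M x.1.1 x.1.2 = M x.2.1 x.2.2).card + n ^ 2 = ∑ u, ∑ v, cnt L M u v ^ 2 := by
  rw [← card_pairs]
  have h1 : (univ.filter fun x : (Fin n × Fin n) × (Fin n × Fin n) => x.1 = x.2).card = n ^ 2 := by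
    have h2 := card_eq_pairs (fun p : Fin n × Fin n => p)
    rw [h2]
    have : ∀ w : Fin n × Fin n, (univ.filter fun p => p = w).card = 1 := by
      intro w
      rw [Finset.card_eq_one]
      exact ⟨w, by ext; simp⟩
    simp only [this]
    simp [sq]
  rw [← h1, ← Finset.card_union_of_disjoint]
  · congr 1
    ext x
    simp only [GP, mem_union, mem_filter, mem_univ, true_and]
    constructor
    · rintro (⟨_, h⟩ | h)
      · exact h
      · rw [h]; exact ⟨rfl, rfl⟩
    · intro h
      by_cases hx : x.1 = x.2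
      · exact Or.inr hx
      · left
        refine ⟨⟨fun h3 => ?_, fun h3 => ?_⟩, h⟩
        · apply hx
          have h4 := h.1
          rw [h3] at h4
          exact Prod.ext h3 ((hL.1 x.2.1).1 h4)
        · apply hx
          have h4 := h.1
          rw [h3] at h4
          exact Prod.ext ((hL.2 x.2.2).1 h4) h3
  · rw [Finset.disjoint_left]
    intro x hx hx2
    simp only [GP, mem_filter, mem_univ, true_and] at hx hx2
    exact hx.1.1 (by rw [hx2])

/-! ### Counting in two squares -/

theorem sum_cnt_self {L : Sq n} (hL : IsLatin L) : ∑ u, ∑ v, cnt L L u v ^ 2 = n ^ 3 := by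
  have h : ∀ u : Fin n, ∑ v, cnt L L u v ^ 2 = n ^ 2 := by
    intro u
    rw [Finset.sum_eq_single u]
    · have : cnt L L u u = n := by
        refine Eq.trans ?_ (card_fiber hL u)
        unfold cnt
        congr 1
        ext p
        simp
      rw [this]
    · intro v _ hv
      have : cnt L L u v = 0 := by
        unfold cnt
        rw [Finset.card_eq_zero]
        apply Finset.filter_eq_empty_iff.2
        rintro p - ⟨h1, h2⟩
        exact hv (h2.symm.trans h1)
      rw [this]
      rfl
    · intro h; exact absurd (Finset.mem_univ _) h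
  simp only [h]
  simp
  ring

theorem cnt_le_two {L M : Sq n} (h : QuasiOrth L M) (u v : Fin n) : cnt L M u v ≤ 2 := by
  by_cases huv : u = v
  · subst huv
    rw [h.1]
    norm_num
  · have := h.2 u v huv
    omega

/-- number of symbols `v` such that the pair `(u, v)` occurs twice -/
def rowTwice (L M : Sq n) (u : Fin n) : ℕ := (univ.filter fun v => cnt L M u v = 2).card

theorem twice_eq (L M : Sq n) : twice L M = ∑ u, rowTwice L M u := by
  unfold twice rowTwice
  rw [Finset.card_filter, Fintype.sum_prod_type]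
  apply Finset.sum_congr rfl
  intro u _
  rw [Finset.card_filter]

theorem row_sq {L M : Sq n} (hL : IsLatin L) (h : QuasiOrth L M) (u : Fin n) :
    ∑ v, cnt L M u v ^ 2 = n + 2 * rowTwice L M u := by
  have h1 : ∀ v, cnt L M u v ^ 2 = cnt L M u v + 2 * (if cnt L M u v = 2 then 1 else 0) := by
    intro v
    have := cnt_le_two h u v
    interval_cases cnt L M u v <;> simp
  calc ∑ v, cnt L M u v ^ 2
      = ∑ v, (cnt L M u v + 2 * (if cnt L M u v = 2 then 1 else 0)) :=
        Finset.sum_congr rfl fun v _ => h1 v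
    _ = n + 2 * rowTwice L M u := by
        rw [Finset.sum_add_distrib, row_sum hL, ← Finset.mul_sum]
        unfold rowTwice
        rw [Finset.card_filter]

theorem row_twice_le {L M : Sq n} (hL : IsLatin L) (h : QuasiOrth L M) (u : Fin n) :
    2 * rowTwice L M u + 1 ≤ n := by
  -- the number of values 2 equals the number of values 0
  have h0 : ∑ v, cnt L M u v + (univ.filter fun v => cnt L M u v = 0).card =
      n + rowTwice L M u := by
    unfold rowTwice
    rw [Finset.card_filter, Finset.card_filter, ← Finset.sum_add_distrib]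
    have : ∀ v : Fin n, cnt L M u v + (if cnt L M u v = 0 then 1 else 0) =
        1 + (if cnt L M u v = 2 then 1 else 0) := by
      intro v
      have := cnt_le_two h u v
      interval_cases cnt L M u v <;> simp
    rw [Finset.sum_congr rfl fun v _ => this v, Finset.sum_add_distrib]
    simp
  rw [row_sum hL] at h0
  have h1 : rowTwice L M u + (univ.filter fun v => cnt L M u v = 0).card + 1 ≤ n := by
    have h2 : (univ.filter fun v => cnt L M u v = 2) ∪ (univ.filter fun v => cnt L M u v = 0) ⊆
        univ.erase u := by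
      intro v hv
      simp only [mem_union, mem_filter, mem_univ, true_and, mem_erase, and_true] at hv ⊢
      rintro rfl
      rw [h.1 v] at hv
      omega
    have h3 := Finset.card_le_card h2
    rw [Finset.card_union_of_disjoint, Finset.card_erase_of_mem (mem_univ _),
      Finset.card_univ, Fintype.card_fin] at h3
    · have : 0 < n := u.pos
      unfold rowTwice
      omega
    · rw [Finset.disjoint_filter]
      intro v _ h4 h5
      omega
  omega

theorem sum_cnt {L M : Sq n} (hL : IsLatin L) (h : QuasiOrth L M) :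
    ∑ u, ∑ v, cnt L M u v ^ 2 = n ^ 2 + 2 * twice L M := by
  rw [twice_eq, Finset.mul_sum]
  rw [Finset.sum_congr rfl fun u _ => row_sq hL h u, Finset.sum_add_distrib]
  simp [sq]

theorem twice_le {L M : Sq n} (hL : IsLatin L) (h : QuasiOrth L M) :
    2 * twice L M ≤ n * (n - 1) := by
  rw [twice_eq, Finset.mul_sum]
  calc ∑ u : Fin n, 2 * rowTwice L M u ≤ ∑ _u : Fin n, (n - 1) := by
        apply Finset.sum_le_sum
        intro u _
        have := row_twice_le hL h u
        omega
    _ = n * (n - 1) := by simp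

theorem twice_le_even (hn : Even n) {L M : Sq n} (hL : IsLatin L) (h : QuasiOrth L M) :
    2 * twice L M ≤ n * (n - 2) := by
  rw [twice_eq, Finset.mul_sum]
  calc ∑ u : Fin n, 2 * rowTwice L M u ≤ ∑ _u : Fin n, (n - 2) := by
        apply Finset.sum_le_sum
        intro u _
        have := row_twice_le hL h u
        obtain ⟨m, hm⟩ := hn
        omega
    _ = n * (n - 2) := by simp

/-! ### The inequality -/

/-- The set of pairs of different cells with the same symbol in `L`. -/
def AG (L : Sq n) : Finset ((Fin n × Fin n) × (Fin n × Fin n)) :=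
  (GP n).filter fun x => L x.1.1 x.1.2 = L x.2.1 x.2.2

theorem card_AG {L : Sq n} (hL : IsLatin L) : (AG L).card + n ^ 2 = n ^ 3 := by
  have h := card_pairs_GP (M := L) hL
  rw [sum_cnt_self hL] at h
  rw [← h]
  unfold AG
  simp only [and_self]

theorem card_AG_inter {L M : Sq n} (hL : IsLatin L) (h : QuasiOrth L M) :
    (AG L ∩ AG M).card = 2 * twice L M := by
  have h1 := card_pairs_GP (M := M) hL
  rw [sum_cnt hL h] at h1
  have h2 : AG L ∩ AG M = (GP n).filter fun x => L x.1.1 x.1.2 = L x.2.1 x.2.2 ∧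
      M x.1.1 x.1.2 = M x.2.1 x.2.2 := by
    unfold AG
    rw [← Finset.filter_and]
  rw [h2]
  omega

/-- number of squares with the same symbol in two cells -/
def RR {N : ℕ} (L : Fin N → Sq n) (x : (Fin n × Fin n) × (Fin n × Fin n)) : ℕ :=
  ∑ k, if x ∈ AG (L k) then 1 else 0

theorem sum_RR {N : ℕ} (L : Fin N → Sq n) : ∑ x ∈ GP n, RR L x = ∑ k, (AG (L k)).card := by
  unfold RR
  rw [Finset.sum_comm]
  apply Finset.sum_congr rfl
  intro k _
  rw [← Finset.card_filter]
  congr 1
  unfold AG
  ext x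
  simp only [mem_filter]
  tauto

theorem sum_RR_sq {N : ℕ} (L : Fin N → Sq n) :
    ∑ x ∈ GP n, RR L x ^ 2 = ∑ k, ∑ l, (AG (L k) ∩ AG (L l)).card := by
  unfold RR
  have h1 : ∀ x ∈ GP n, (∑ k, if x ∈ AG (L k) then 1 else 0) ^ 2 =
      ∑ k, ∑ l, if x ∈ AG (L k) ∩ AG (L l) then 1 else 0 := by
    intro x _
    rw [sq, Finset.sum_mul_sum]
    apply Finset.sum_congr rfl
    intro k _
    apply Finset.sum_congr rfl
    intro l _
    by_cases h1 : x ∈ AG (L k) <;> by_cases h2 : x ∈ AG (L l) <;> simp [h1, h2]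
  rw [Finset.sum_congr rfl h1, Finset.sum_comm]
  apply Finset.sum_congr rfl
  intro k _
  rw [Finset.sum_comm]
  apply Finset.sum_congr rfl
  intro l _
  rw [← Finset.card_filter]
  congr 1
  unfold AG
  ext x
  simp only [mem_filter, mem_inter]
  tauto

/-- The basic inequality. -/
theorem basic (hn : 2 ≤ n) {N : ℕ} {L : Fin N → Sq n} (hL : IsMQOLS L) :
    (N : ℤ) * n ^ 2 * (N - n + 1) ≤ 2 * ∑ k, ∑ l ∈ univ.erase k, (twice (L k) (L l) : ℤ) := by
  have h1 := sq_sum_le_card_mul_sum_sq (s := GP n) (f := fun x => (RR L x : ℤ))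
  have h2 : (∑ x ∈ GP n, (RR L x : ℤ)) = N * (n ^ 3 - n ^ 2) := by
    rw [← Nat.cast_sum, sum_RR]
    push_cast
    rw [Finset.sum_congr rfl (g := fun _ => ((n : ℤ) ^ 3 - n ^ 2)) ?_]
    · simp
      ring
    · intro k _
      have := card_AG (hL.1 k)
      have h3 : (((AG (L k)).card + n ^ 2 : ℕ) : ℤ) = ((n ^ 3 : ℕ) : ℤ) := by rw [this]
      push_cast at h3
      linarith
  have h3 : (∑ x ∈ GP n, (RR L x : ℤ) ^ 2) =
      N * (n ^ 3 - n ^ 2) + 2 * ∑ k, ∑ l ∈ univ.erase k, (twice (L k) (L l) : ℤ) := by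
    have h4 := sum_RR_sq L
    have h5 : (∑ x ∈ GP n, (RR L x : ℤ) ^ 2) = ((∑ x ∈ GP n, RR L x ^ 2 : ℕ) : ℤ) := by
      push_cast; rfl
    rw [h5, h4]
    push_cast
    rw [Finset.mul_sum]
    have h6 : ∀ k : Fin N, (∑ l, ((AG (L k) ∩ AG (L l)).card : ℤ)) =
        ((n : ℤ) ^ 3 - n ^ 2) + 2 * ∑ l ∈ univ.erase k, (twice (L k) (L l) : ℤ) := by
      intro k
      rw [← Finset.add_sum_erase _ _ (mem_univ k), Finset.inter_self, Finset.mul_sum]
      congr 1
      · have := card_AG (hL.1 k)
        have h3 : (((AG (L k)).card + n ^ 2 : ℕ) : ℤ) = ((n ^ 3 : ℕ) : ℤ) := by rw [this]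
        push_cast at h3
        linarith
      · apply Finset.sum_congr rfl
        intro l hl
        rw [card_AG_inter (hL.1 k) (hL.2 k l (Finset.ne_of_mem_erase hl).symm)]
        push_cast
        ring
    rw [Finset.sum_congr rfl fun k _ => h6 k, Finset.sum_add_distrib]
    simp
    ring
  rw [h2, h3, card_GP] at h1
  obtain ⟨T, hT⟩ : ∃ T : ℤ, T = 2 * ∑ k, ∑ l ∈ univ.erase k, (twice (L k) (L l) : ℤ) := ⟨_, rfl⟩
  rw [← hT] at h1 ⊢
  obtain ⟨m, rfl⟩ : ∃ m, n = m + 2 := ⟨n - 2, by omega⟩
  have e : ((((m + 2) * (m + 2 - 1)) ^ 2 : ℕ) : ℤ) = ((m : ℤ) + 2) ^ 2 * (m + 1) ^ 2 := by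
    have : m + 2 - 1 = m + 1 := by omega
    rw [this]
    push_cast
    ring
  rw [e] at h1
  push_cast at h1 ⊢
  have hm : (0 : ℤ) < (m + 2) ^ 2 * (m + 1) ^ 2 := by positivity
  have h7 : ((m : ℤ) + 2) ^ 2 * (m + 1) ^ 2 * ((N : ℤ) * (m + 2) ^ 2 * (N - (m + 2) + 1)) ≤
      ((m : ℤ) + 2) ^ 2 * (m + 1) ^ 2 * T := by nlinarith
  exact le_of_mul_le_mul_left h7 hm

/-- The bound for even orders. -/
theorem even_bound (hn : Even n) (hn0 : 0 < n) {N : ℕ} {L : Fin N → Sq n} (hL : IsMQOLS L) :
    2 * N + 2 * n ≤ n ^ 2 + 2 := by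
  have hn2 : 2 ≤ n := by obtain ⟨m, hm⟩ := hn; omega
  rcases Nat.eq_zero_or_pos N with h0 | hN
  · subst h0
    nlinarith
  have h := basic hn2 hL
  have h1 : 2 * ∑ k, ∑ l ∈ univ.erase k, (twice (L k) (L l) : ℤ) ≤
      N * ((N - 1) * ((n : ℤ) * (n - 2))) := by
    rw [Finset.mul_sum]
    calc ∑ k, 2 * ∑ l ∈ univ.erase k, (twice (L k) (L l) : ℤ)
        ≤ ∑ _k : Fin N, ((N - 1) * ((n : ℤ) * (n - 2))) := by
          apply Finset.sum_le_sum
          intro k _
          rw [Finset.mul_sum]
          calc ∑ l ∈ univ.erase k, 2 * (twice (L k) (L l) : ℤ)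
              ≤ ∑ _l ∈ univ.erase k, ((n : ℤ) * (n - 2)) := by
                apply Finset.sum_le_sum
                intro l hl
                have h2 := twice_le_even hn (hL.1 k) (hL.2 k l (Finset.ne_of_mem_erase hl).symm)
                have h3 : ((2 * twice (L k) (L l) : ℕ) : ℤ) ≤ ((n * (n - 2) : ℕ) : ℤ) := by
                  exact_mod_cast h2
                rw [Nat.cast_mul, Nat.cast_mul, Nat.cast_sub hn2] at h3
                push_cast at h3
                exact h3
            _ = (N - 1) * ((n : ℤ) * (n - 2)) := by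
                rw [Finset.sum_const, Finset.card_erase_of_mem (mem_univ _), Finset.card_univ,
                  Fintype.card_fin, nsmul_eq_mul, Nat.cast_sub hN]
                push_cast
                ring
      _ = N * ((N - 1) * ((n : ℤ) * (n - 2))) := by simp
  have hNz : (0 : ℤ) < N := by exact_mod_cast hN
  have hnz : (0 : ℤ) < n := by exact_mod_cast hn0
  have h4 : (N : ℤ) * n * (n * (N - n + 1)) ≤ N * n * ((N - 1) * (n - 2)) := by nlinarith
  have h5 := le_of_mul_le_mul_left h4 (by positivity)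
  have h6 : (2 : ℤ) * N + 2 * n ≤ n ^ 2 + 2 := by nlinarith
  exact_mod_cast h6

/-- If there are at least `n` squares then two of them are far from orthogonal. -/
theorem exists_far (hn : 2 ≤ n) {N : ℕ} (hN : n ≤ N) {L : Fin N → Sq n} (hL : IsMQOLS L) :
    ∃ k l, k ≠ l ∧ n + 1 < 2 * twice (L k) (L l) := by
  by_contra hcon
  push Not at hcon
  have h := basic hn hL
  have hN0 : 0 < N := by omega
  have h1 : 2 * ∑ k, ∑ l ∈ univ.erase k, (twice (L k) (L l) : ℤ) ≤
      N * ((N - 1) * ((n : ℤ) + 1)) := by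
    rw [Finset.mul_sum]
    calc ∑ k, 2 * ∑ l ∈ univ.erase k, (twice (L k) (L l) : ℤ)
        ≤ ∑ _k : Fin N, ((N - 1) * ((n : ℤ) + 1)) := by
          apply Finset.sum_le_sum
          intro k _
          rw [Finset.mul_sum]
          calc ∑ l ∈ univ.erase k, 2 * (twice (L k) (L l) : ℤ)
              ≤ ∑ _l ∈ univ.erase k, ((n : ℤ) + 1) := by
                apply Finset.sum_le_sum
                intro l hl
                have h2 := hcon k l (Finset.ne_of_mem_erase hl).symm
                exact_mod_cast h2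
            _ = (N - 1) * ((n : ℤ) + 1) := by
                rw [Finset.sum_const, Finset.card_erase_of_mem (mem_univ _), Finset.card_univ,
                  Fintype.card_fin, nsmul_eq_mul, Nat.cast_sub hN0]
                push_cast
                ring
      _ = N * ((N - 1) * ((n : ℤ) + 1)) := by simp
  have hNz : (0 : ℤ) < N := by exact_mod_cast hN0
  have h4 : (N : ℤ) * (n ^ 2 * (N - n + 1)) ≤ N * ((N - 1) * (n + 1)) := by nlinarith
  have h5 := le_of_mul_le_mul_left h4 hNz
  obtain ⟨d, rfl⟩ : ∃ d, N = n + d := ⟨N - n, by omega⟩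
  push_cast at h5
  have hn2 : (2 : ℤ) ≤ n := by exact_mod_cast hn
  have hd : (0 : ℤ) ≤ d := Int.natCast_nonneg d
  nlinarith [mul_nonneg hd (sub_nonneg.2 hn2), mul_nonneg hd hd]

/-- Complete sets of orthogonal squares are maximal. -/
theorem complete_maximal (hn : 2 ≤ n) {L : Fin (n - 1) → Sq n} (hL : IsMOLS L) (M : Sq n)
    (hM : IsLatin M) (h : ∀ k, QuasiOrth (L k) M) : False := by
  -- every pair of cells in general position agrees in at most one square
  have h1 : ∀ x ∈ GP n, RR L x ≤ 1 := by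
    intro x hx
    by_contra hc
    push Not at hc
    unfold RR at hc
    rw [← Finset.card_filter] at hc
    obtain ⟨k, hk, l, hl, hkl⟩ := Finset.one_lt_card.1 hc
    simp only [mem_filter, mem_univ, true_and] at hk hl
    have h2 := hL.2 k l hkl (L k x.1.1 x.1.2) (L l x.1.1 x.1.2)
    unfold cnt at h2
    have h3 : x.1 = x.2 := by
      apply Finset.card_le_one.1 h2.le
      · simp
      · simp only [AG, mem_filter] at hk hl
        simp only [mem_filter, mem_univ, true_and]
        exact ⟨hk.2.symm, hl.2.symm⟩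
    simp only [GP, mem_filter] at hx
    exact hx.2.1 (by rw [h3])
  have hcard : ∑ x ∈ GP n, RR L x = ∑ _x ∈ GP n, 1 := by
    rw [sum_RR, Finset.sum_const, card_GP, smul_eq_mul, mul_one]
    have h4 : ∀ k : Fin (n - 1), (AG (L k)).card = n ^ 2 * (n - 1) := by
      intro k
      have := card_AG (hL.1 k)
      have h5 : n ^ 2 * (n - 1) + n ^ 2 = n ^ 3 := by
        obtain ⟨m, rfl⟩ : ∃ m, n = m + 1 := ⟨n - 1, by omega⟩
        simp only [Nat.add_sub_cancel]
        ring
      omega
    rw [Finset.sum_congr rfl fun k _ => h4 k]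
    simp
    ring
  have h2 : ∀ x ∈ GP n, RR L x = 1 := by
    exact (Finset.sum_eq_sum_iff_of_le h1).1 hcard
  -- count the pairs with equal symbol in `M`
  have h3 : ∑ k, (AG (L k) ∩ AG M).card = (AG M).card := by
    rw [Finset.card_eq_sum_ones (AG M)]
    have h5 : ∀ x ∈ AG M, 1 = RR L x := fun x hx => (h2 x (Finset.mem_filter.1 hx).1).symm
    rw [Finset.sum_congr rfl h5]
    unfold RR
    rw [Finset.sum_comm]
    apply Finset.sum_congr rfl
    intro k _
    rw [← Finset.card_filter]
    congr 1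
    ext x
    simp only [mem_inter, mem_filter]
    tauto
  have h4 : ∑ k, (AG (L k) ∩ AG M).card ≤ (n - 1) * (n * (n - 1)) := by
    calc ∑ k, (AG (L k) ∩ AG M).card ≤ ∑ _k : Fin (n - 1), (n * (n - 1)) := by
          apply Finset.sum_le_sum
          intro k _
          rw [card_AG_inter (hL.1 k) (h k)]
          exact twice_le (hL.1 k) (h k)
      _ = (n - 1) * (n * (n - 1)) := by simp
  have h5 := card_AG hM
  rw [h3] at h4
  obtain ⟨m, rfl⟩ : ∃ m, n = m + 2 := ⟨n - 2, by omega⟩
  have e : m + 2 - 1 = m + 1 := by omega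
  rw [e] at h4
  nlinarith

/-- **Main theorem.** -/
theorem result :
    -- (1) many ordered pairs of symbols occur twice
    (∀ (n N : ℕ) (L : Fin N → Sq n), 2 ≤ n → IsMQOLS L →
      (N : ℤ) * n ^ 2 * (N - n + 1) ≤
        2 * ∑ k, ∑ l ∈ univ.erase k, (twice (L k) (L l) : ℤ)) ∧
    -- (2) even orders
    (∀ (n N : ℕ) (L : Fin N → Sq n), 0 < n → Even n → IsMQOLS L →
      2 * N + 2 * n ≤ n ^ 2 + 2) ∧
    -- (3) sets with at least `n` squares are far from orthogonal
    (∀ (n N : ℕ) (L : Fin N → Sq n), 2 ≤ n → n ≤ N → IsMQOLS L →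
      ∃ k l, k ≠ l ∧ n + 1 < 2 * twice (L k) (L l)) ∧
    -- (4) complete sets of orthogonal latin squares are maximal
    (∀ (n : ℕ) (L : Fin (n - 1) → Sq n), 2 ≤ n → IsMOLS L →
      ¬ ∃ M : Sq n, IsLatin M ∧ ∀ k, QuasiOrth (L k) M) :=
  ⟨fun _ _ _ hn hL => basic hn hL, fun _ _ _ h0 hn hL => even_bound hn h0 hL,
    fun _ _ _ hn hN hL => exists_far hn hN hL,
    fun _ _ hn hL ⟨M, hM, h⟩ => complete_maximal hn hL M hM h⟩

end Pool.Agent.Results.MP_dea8c9_co.UnbalancedPairs
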